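import Pool.Agent.Helper99_Eng3.Stmts

/-!
Squad ENG, part 3 (MP_da8eb3_al), module OEUB: the dimension bound for unipotent isometries.
-/

set_option autoImplicit false

namespace Pool.Agent.Eng.H35

open Module

section
variable {F V : Type} [Field F] [AddCommGroup V] [Module F V] [FiniteDimensional F V]

lemma rank_pow (n : V →ₗ[F] V) (hn : IsNilpotent n) (i : ℕ) :
    finrank F (LinearMap.range (n ^ i)) + i ≤ finrank F V ∨
      LinearMap.range (n ^ i) = ⊥ := by
  induction i with
  | zero =>
    left
    simpa using Submodule.finrank_le (LinearMap.range (n ^ 0))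
  | succ i ih =>
    have hle : LinearMap.range (n ^ (i + 1)) ≤ LinearMap.range (n ^ i) := by
      rw [pow_succ]
      rintro x ⟨y, rfl⟩
      exact ⟨n y, rfl⟩
    rcases ih with ih | ih
    · rcases eq_or_lt_of_le hle with h | h
      · right
        have key : ∀ j : ℕ, LinearMap.range (n ^ (i + j)) = LinearMap.range (n ^ i) := by
          intro j
          induction j with
          | zero => simp
          | succ j ihj =>
            have e1 : n ^ (i + (j + 1)) = n * n ^ (i + j) := by
              rw [← add_assoc, pow_succ']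
            have e2 : n ^ (i + 1) = n * n ^ i := pow_succ' n i
            rw [e1, Module.End.mul_eq_comp, LinearMap.range_comp, ihj, ← LinearMap.range_comp,
              ← Module.End.mul_eq_comp, ← e2, h]
        obtain ⟨m, hm⟩ := hn
        have h3 := key m
        rw [pow_add, hm, mul_zero, LinearMap.range_zero] at h3
        rw [h, ← h3]
      · left
        have := Submodule.finrank_lt_finrank_of_lt h
        omega
    · right
      rw [ih] at hle
      exact le_bot_iff.1 hle

/-- an isometry `h` with `h - 1` nilpotent is trivial if `h - 1` has rank at most `1` -/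
lemma no_rank_one (Q : QuadraticForm F V) (hQ : ND Q) (h2 : (2 : F) ≠ 0) (T : V →ₗ[F] V)
    (hT : IsNilpotent T) (hiso : ∀ v, Q (v + T v) = Q v)
    (hr : finrank F (LinearMap.range T) ≤ 1) : T = 0 := by
  by_contra hne
  obtain ⟨v, hv⟩ : ∃ v, T v ≠ 0 := by
    by_contra hcon
    push Not at hcon
    exact hne (LinearMap.ext hcon)
  have hrk : ∀ w, ∃ l : F, T w = l • T v := by
    intro w
    obtain ⟨e, he⟩ := finrank_le_one_iff.1 hr
    obtain ⟨l1, h1⟩ := he ⟨T v, ⟨v, rfl⟩⟩
    obtain ⟨l2, h2⟩ := he ⟨T w, ⟨w, rfl⟩⟩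
    have h1' : l1 • (e : V) = T v := congrArg Subtype.val h1
    have h2' : l2 • (e : V) = T w := congrArg Subtype.val h2
    have hl1 : l1 ≠ 0 := by
      rintro rfl
      rw [zero_smul] at h1'
      exact hv h1'.symm
    refine ⟨l2 * l1⁻¹, ?_⟩
    rw [← h1', ← h2', smul_smul, mul_assoc, inv_mul_cancel₀ hl1, mul_one]
  -- `T (T v) = 0`
  have hTT : T (T v) = 0 := by
    obtain ⟨l, hl⟩ := hrk (T v)
    have hp : ∀ m : ℕ, (T ^ m) (T v) = l ^ m • T v := by
      intro m
      induction m with
      | zero => simp
      | succ m ih =>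
        rw [pow_succ', Module.End.mul_apply, ih, map_smul, hl, smul_smul, pow_succ]
    obtain ⟨m, hm⟩ := hT
    have h3 := hp m
    rw [hm, LinearMap.zero_apply] at h3
    have h4 : l ^ m = 0 := by
      by_contra h5
      exact hv ((smul_eq_zero.1 h3.symm).resolve_left h5)
    have h5 : l = 0 := eq_zero_of_pow_eq_zero h4
    rw [hl, h5, zero_smul]
  -- the polar form
  have hB : ∀ u w, QuadraticMap.polar Q (T u) w + QuadraticMap.polar Q u (T w)
      + QuadraticMap.polar Q (T u) (T w) = 0 := by
    intro u w
    have h1 : QuadraticMap.polar Q (u + T u) (w + T w) = QuadraticMap.polar Q u w := by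
      have e : u + T u + (w + T w) = (u + w) + T (u + w) := by
        rw [map_add]
        abel
      unfold QuadraticMap.polar
      rw [e, hiso, hiso, hiso]
    rw [QuadraticMap.polar_add_left, QuadraticMap.polar_add_right,
      QuadraticMap.polar_add_right] at h1
    linear_combination h1
  have hcc : QuadraticMap.polar Q (T v) (T v) = 0 := by
    have h1 := hB v (T v)
    rw [hTT, QuadraticMap.polar_zero_right, QuadraticMap.polar_zero_right, add_zero,
      add_zero] at h1
    exact h1
  have hcv : QuadraticMap.polar Q (T v) v = 0 := by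
    have h1 := hB v v
    rw [hcc, add_zero, QuadraticMap.polar_comm Q v (T v)] at h1
    have h3 : (2 : F) * QuadraticMap.polar Q (T v) v = 0 := by linear_combination h1
    exact (mul_eq_zero.1 h3).resolve_left h2
  refine hv (hQ (T v) fun w => ?_)
  obtain ⟨l, hl⟩ := hrk w
  have h1 := hB v (w - l • v)
  have h3 : T (w - l • v) = 0 := by
    rw [map_sub, map_smul, hl, sub_self]
  rw [h3, QuadraticMap.polar_zero_right, QuadraticMap.polar_zero_right, add_zero, add_zero,
    sub_eq_add_neg, QuadraticMap.polar_add_right, QuadraticMap.polar_neg_right,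
    QuadraticMap.polar_smul_right, hcv, smul_zero, neg_zero, add_zero] at h1
  exact h1

end

/-- OEUB -/
theorem oeub : OeubStmt := by
  intro F V _ _ _ _ Q p k _ hQ hp hp2 hk g hg hord
  have : Fact p.Prime := ⟨hp⟩
  have h2 : (2 : F) ≠ 0 := by
    intro h
    have h3 : p ∣ 2 := (CharP.cast_eq_zero_iff F p 2).1 (by exact_mod_cast h)
    exact hp2 ((Nat.prime_dvd_prime_iff_eq hp Nat.prime_two).1 h3)
  have hpos : 1 < p ^ k := Nat.one_lt_pow (by omega) hp.one_lt
  have hg1 : g ≠ 1 := by
    rintro rfl
    rw [orderOf_one] at hord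
    omega
  have : Nontrivial V := by
    by_contra h
    rw [not_nontrivial_iff_subsingleton] at h
    exact hg1 (LinearEquiv.ext fun v => Subsingleton.elim _ _)
  have : CharP (Module.End F V) p :=
    charP_of_injective_algebraMap (algebraMap F (Module.End F V)).injective p
  set γ : Module.End F V := (g : V →ₗ[F] V) with hγ
  have hpow : ∀ m : ℕ, γ ^ m = ((g ^ m : V ≃ₗ[F] V) : V →ₗ[F] V) := by
    intro m
    induction m with
    | zero => rfl
    | succ m ih =>
      rw [pow_succ, pow_succ, ih]
      rfl
  have hchar : ∀ j : ℕ, (γ - 1) ^ (p ^ j) = γ ^ (p ^ j) - 1 := by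
    intro j
    rw [sub_pow_char_pow_of_commute _ _ (Commute.one_right γ), one_pow]
  have hnil : IsNilpotent (γ - 1) := by
    refine ⟨p ^ k, ?_⟩
    rw [hchar, hpow, ← hord, pow_orderOf_eq_one]
    exact sub_self _
  have hgi : ∀ (m : ℕ) (v : V), Q ((g ^ m) v) = Q v := by
    intro m v
    exact (Subgroup.pow_mem _ hg m) v
  have hT : (γ - 1) ^ (p ^ (k - 1)) ≠ 0 := by
    rw [hchar, hpow]
    intro h
    have h3 : g ^ (p ^ (k - 1)) = 1 := by
      ext v
      have := LinearMap.congr_fun h v
      exact sub_eq_zero.1 this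
    have h4 := orderOf_dvd_of_pow_eq_one h3
    rw [hord] at h4
    have h5 := (Nat.pow_dvd_pow_iff_le_right hp.one_lt).1 h4
    omega
  have hTn : IsNilpotent ((γ - 1) ^ (p ^ (k - 1))) := hnil.pow_of_pos (by
    have := hp.pos
    positivity)
  rcases rank_pow (γ - 1) hnil (p ^ (k - 1)) with h | h
  · by_contra hcon
    apply hT
    refine no_rank_one Q hQ h2 _ hTn (fun v => ?_) (by omega)
    rw [hchar, hpow]
    have h3 : v + (((g ^ p ^ (k - 1) : V ≃ₗ[F] V) : V →ₗ[F] V) - 1) v = (g ^ p ^ (k - 1)) v := by
      show v + ((g ^ p ^ (k - 1)) v - v) = _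
      abel
    rw [h3, hgi]
  · exact absurd (LinearMap.range_eq_bot.1 h) hT

end Pool.Agent.Eng.H35
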