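import Pool.Agent.Helper99_Eng3.Stmts

/-!
Squad ENG, part 3 (MP_da8eb3_al), module OREAL: cyclic isometries are conjugate to their inverses.
-/

set_option autoImplicit false

namespace Pool.Agent.Eng.H35

open Module Polynomial
open scoped commutatorElement

section
variable {F V : Type} [Field F] [AddCommGroup V] [Module F V]

lemma polar_iso (Q : QuadraticForm F V) {g : V ≃ₗ[F] V} (hg : ∀ v, Q (g v) = Q v) (u v : V) :
    QuadraticMap.polar Q (g u) (g v) = QuadraticMap.polar Q u v := by
  unfold QuadraticMap.polar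
  rw [← map_add, hg, hg, hg]

/-- the cyclic vector map -/
noncomputable def ev (A : Module.End F V) (θ : V) : F[X] →ₗ[F] V :=
  (LinearMap.applyₗ θ).comp (aeval A).toLinearMap

lemma ev_apply (A : Module.End F V) (θ : V) (R : F[X]) : ev A θ R = (aeval A R) θ := rfl

lemma ev_X_mul (A : Module.End F V) (θ : V) (R : F[X]) : ev A θ (X * R) = A (ev A θ R) := by
  rw [ev_apply, ev_apply, map_mul, aeval_X]
  rfl

lemma ev_monomial (A : Module.End F V) (θ : V) (i : ℕ) (a : F) :
    ev A θ (monomial i a) = a • (A ^ i) θ := by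
  rw [ev_apply, aeval_monomial, Module.algebraMap_end_eq_smul_id]
  rfl

/-- adjoint -/
lemma adj (Q : QuadraticForm F V) {g : V ≃ₗ[F] V} (hg : ∀ v, Q (g v) = Q v) (R : F[X])
    (u v : V) : QuadraticMap.polar Q ((aeval (g : V →ₗ[F] V) R) u) v
      = QuadraticMap.polar Q u ((aeval (g.symm : V →ₗ[F] V) R) v) := by
  induction R using Polynomial.induction_on' generalizing u v with
  | add R S hR hS =>
    rw [map_add, map_add, LinearMap.add_apply, LinearMap.add_apply, QuadraticMap.polar_add_left,
      QuadraticMap.polar_add_right, hR, hS]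
  | monomial i a =>
    rw [aeval_monomial, aeval_monomial, Module.algebraMap_end_eq_smul_id,
      Module.End.mul_apply, Module.End.mul_apply]
    simp only [LinearMap.smul_apply, LinearMap.id_apply]
    rw [QuadraticMap.polar_smul_left, QuadraticMap.polar_smul_right]
    congr 1
    induction i generalizing u v with
    | zero => rfl
    | succ i ih =>
      rw [pow_succ, pow_succ', Module.End.mul_apply, Module.End.mul_apply, ih]
      have := polar_iso Q hg u (g.symm ((((g.symm : V ≃ₗ[F] V) : V →ₗ[F] V) ^ i) v))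
      rw [LinearEquiv.apply_symm_apply] at this
      exact this

/-- isometry on polynomials -/
lemma iso_ev (Q : QuadraticForm F V) {g : V ≃ₗ[F] V} (hg : ∀ v, Q (g v) = Q v) (θ : V)
    (R : F[X]) : Q (ev (g.symm : V →ₗ[F] V) θ R) = Q (ev (g : V →ₗ[F] V) θ R) := by
  have hgs : ∀ v, Q (g.symm v) = Q v := fun v => by
    have := hg (g.symm v)
    rw [LinearEquiv.apply_symm_apply] at this
    exact this.symm
  have hpg : ∀ (i : ℕ) (v : V), Q ((((g : V ≃ₗ[F] V) : V →ₗ[F] V) ^ i) v) = Q v := by
    intro i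
    induction i with
    | zero => intro v; rfl
    | succ i ih =>
      intro v
      rw [pow_succ, Module.End.mul_apply, ih]
      exact hg v
  have hpgs : ∀ (i : ℕ) (v : V), Q ((((g.symm : V ≃ₗ[F] V) : V →ₗ[F] V) ^ i) v) = Q v := by
    intro i
    induction i with
    | zero => intro v; rfl
    | succ i ih =>
      intro v
      rw [pow_succ, Module.End.mul_apply, ih]
      exact hgs v
  have hcan : ∀ (i : ℕ) (v : V), (((g : V ≃ₗ[F] V) : V →ₗ[F] V) ^ i)
      ((((g.symm : V ≃ₗ[F] V) : V →ₗ[F] V) ^ i) v) = v := by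
    intro i
    induction i with
    | zero => intro v; rfl
    | succ i ih =>
      intro v
      rw [pow_succ', pow_succ, Module.End.mul_apply, Module.End.mul_apply, ih]
      exact g.apply_symm_apply v
  have hppi : ∀ (i : ℕ) (u v : V), QuadraticMap.polar Q ((((g : V ≃ₗ[F] V) : V →ₗ[F] V) ^ i) u)
      ((((g : V ≃ₗ[F] V) : V →ₗ[F] V) ^ i) v) = QuadraticMap.polar Q u v := by
    intro i u v
    unfold QuadraticMap.polar
    rw [← map_add, hpg, hpg, hpg]
  have hcomm : ∀ (i j : ℕ) (v : V), (((g : V ≃ₗ[F] V) : V →ₗ[F] V) ^ (i + j))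
      ((((g.symm : V ≃ₗ[F] V) : V →ₗ[F] V) ^ i) v) = (((g : V ≃ₗ[F] V) : V →ₗ[F] V) ^ j) v := by
    intro i j v
    rw [add_comm, pow_add, Module.End.mul_apply, hcan]
  have hmono : ∀ (i j : ℕ), QuadraticMap.polar Q ((((g.symm : V ≃ₗ[F] V) : V →ₗ[F] V) ^ i) θ)
      ((((g.symm : V ≃ₗ[F] V) : V →ₗ[F] V) ^ j) θ)
      = QuadraticMap.polar Q ((((g : V ≃ₗ[F] V) : V →ₗ[F] V) ^ i) θ)
        ((((g : V ≃ₗ[F] V) : V →ₗ[F] V) ^ j) θ) := by
    intro i j
    rw [← hppi (i + j), hcomm i j, add_comm i j, hcomm j i, QuadraticMap.polar_comm]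
  have hpol : ∀ R S : F[X], QuadraticMap.polar Q (ev (g.symm : V →ₗ[F] V) θ R)
      (ev (g.symm : V →ₗ[F] V) θ S) = QuadraticMap.polar Q (ev (g : V →ₗ[F] V) θ R)
      (ev (g : V →ₗ[F] V) θ S) := by
    intro R S
    induction R using Polynomial.induction_on' with
    | add R R' hR hR' =>
      rw [map_add, map_add, QuadraticMap.polar_add_left, QuadraticMap.polar_add_left, hR, hR']
    | monomial i a =>
      induction S using Polynomial.induction_on' with
      | add S S' hS hS' =>
        rw [map_add, map_add, QuadraticMap.polar_add_right, QuadraticMap.polar_add_right, hS, hS']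
      | monomial j b =>
        rw [ev_monomial, ev_monomial, ev_monomial, ev_monomial, QuadraticMap.polar_smul_left,
          QuadraticMap.polar_smul_right, QuadraticMap.polar_smul_left,
          QuadraticMap.polar_smul_right, hmono]
  induction R using Polynomial.induction_on' with
  | add R S hR hS =>
    have h1 := hpol R S
    unfold QuadraticMap.polar at h1
    rw [(ev (g.symm : V →ₗ[F] V) θ).map_add, (ev (g : V →ₗ[F] V) θ).map_add]
    rw [hR, hS] at h1
    linear_combination h1
  | monomial i a =>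
    rw [ev_monomial, ev_monomial, QuadraticMap.map_smul, QuadraticMap.map_smul, hpg, hpgs]

end

/-- OREAL -/
theorem oreal : OrealStmt := by
  intro F V _ _ _ _ _ Q hQ g hg θ hθ
  have hg' : ∀ v, Q (g v) = Q v := hg
  set A : Module.End F V := (g : V →ₗ[F] V) with hA
  set A' : Module.End F V := (g.symm : V →ₗ[F] V) with hA'
  have hsurj : Function.Surjective (ev A θ) := by
    rw [← LinearMap.range_eq_top, eq_top_iff, ← hθ, Submodule.span_le]
    rintro x ⟨i, rfl⟩
    refine ⟨monomial i 1, ?_⟩
    rw [ev_monomial, one_smul]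
    show (A ^ i) θ = (g ^ i) θ
    have : ∀ (i : ℕ) (v : V), (A ^ i) v = (g ^ i) v := by
      intro i
      induction i with
      | zero => intro v; rfl
      | succ i ih =>
        intro v
        rw [pow_succ, pow_succ, Module.End.mul_apply, ih]
        rfl
    exact this i θ
  have hker : LinearMap.ker (ev A θ) ≤ LinearMap.ker (ev A' θ) := by
    intro R hR
    rw [LinearMap.mem_ker] at hR ⊢
    have h1 : ∀ v, (aeval A R) v = 0 := by
      intro v
      obtain ⟨S, rfl⟩ := hsurj v
      rw [ev_apply, ← Module.End.mul_apply, ← map_mul, mul_comm, map_mul, Module.End.mul_apply]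
      rw [ev_apply] at hR
      rw [hR, map_zero]
    rw [ev_apply]
    refine hQ _ fun w => ?_
    rw [QuadraticMap.polar_comm, ← adj Q hg' R w θ]
    rw [show (aeval (g : V →ₗ[F] V) R) w = 0 from h1 w, QuadraticMap.polar_zero_left]
  obtain ⟨h, hh⟩ : ∃ h : V →ₗ[F] V, ∀ R, h (ev A θ R) = ev A' θ R := by
    refine ⟨((LinearMap.ker (ev A θ)).liftQ (ev A' θ) hker).comp
      ((ev A θ).quotKerEquivOfSurjective hsurj).symm.toLinearMap, fun R => ?_⟩
    have e : ((ev A θ).quotKerEquivOfSurjective hsurj).symm (ev A θ R)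
        = (LinearMap.ker (ev A θ)).mkQ R := by
      rw [LinearEquiv.symm_apply_eq]
      rfl
    show (LinearMap.ker (ev A θ)).liftQ (ev A' θ) hker
      (((ev A θ).quotKerEquivOfSurjective hsurj).symm (ev A θ R)) = _
    rw [e]
    rfl
  have hiso : ∀ v, Q (h v) = Q v := by
    intro v
    obtain ⟨R, rfl⟩ := hsurj v
    rw [hh]
    exact iso_ev Q hg' θ R
  have hcom : ∀ v, h (g v) = g.symm (h v) := by
    intro v
    obtain ⟨R, rfl⟩ := hsurj v
    have e1 : g (ev A θ R) = ev A θ (X * R) := (ev_X_mul A θ R).symm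
    rw [e1, hh, hh, ev_X_mul]
    rfl
  have hinj : Function.Injective h := by
    rw [← LinearMap.ker_eq_bot, LinearMap.ker_eq_bot']
    intro v hv
    refine hQ v fun w => ?_
    have h1 : QuadraticMap.polar Q (h v) (h w) = QuadraticMap.polar Q v w := by
      unfold QuadraticMap.polar
      rw [← map_add, hiso, hiso, hiso]
    rw [← h1, hv, QuadraticMap.polar_zero_left]
  set η : V ≃ₗ[F] V := LinearEquiv.ofInjectiveEndo h hinj with hη
  have hηh : ∀ v, η v = h v := fun v => rfl
  have hηO : η ∈ OV Q := fun v => by rw [hηh, hiso]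
  have hrel : η * g = g⁻¹ * η := by
    ext v
    exact hcom v
  have hgg : g * g = ⁅g, η⁻¹⁆ := by
    rw [commutatorElement_def, inv_inv]
    have : η⁻¹ * g⁻¹ * η = g := by
      rw [mul_assoc, ← hrel, inv_mul_cancel_left]
    rw [mul_assoc, mul_assoc, ← mul_assoc (η⁻¹), this]
  have hmem : g * g ∈ OmV Q := by
    rw [hgg]
    exact Subgroup.commutator_mem_commutator hg (inv_mem hηO)
  refine ⟨hmem, fun hodd => ?_⟩
  obtain ⟨m, hm⟩ := hodd
  have h1 : g = (g * g) ^ (m + 1) := by
    rw [← pow_two, ← pow_mul, show 2 * (m + 1) = orderOf g + 1 by omega, pow_succ,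
      pow_orderOf_eq_one, one_mul]
  rw [h1]
  exact Subgroup.pow_mem _ hmem _

end Pool.Agent.Eng.H35
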